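import Pool.Agent.Helper30_Sph.Stmts

set_option autoImplicit false

/-!
# SPH, module ACY: complements of simplices in homology spheres are acyclic
-/

namespace Pool.Agent.Sph.H18

open Pool.Agent.Helper30L2

variable {V : Type} [DecidableEq V] [Fintype V]

/-- the link part of a chain -/
def lp (v : V) (z : Finset V → ZMod 2) (T : Finset V) : ZMod 2 :=
  if v ∈ T then 0 else z (insert v T)

/-- the cone over a chain -/
def cn (v : V) (u : Finset V → ZMod 2) (T : Finset V) : ZMod 2 :=
  if v ∈ T then u (T.erase v) else 0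

theorem bd_add (y z : Finset V → ZMod 2) : bd (y + z) = bd y + bd z := by
  funext T
  simp [bd, Finset.sum_add_distrib]

theorem bd_zero : bd (0 : Finset V → ZMod 2) = 0 := by
  funext T
  simp [bd]

theorem ch_zero (Γ : SimpleGraph V) (S : Finset V) (q : ℕ) : Ch Γ S q 0 := by
  intro T hT
  simp at hT

theorem ch_add {Γ : SimpleGraph V} {S : Finset V} {q : ℕ} {y z : Finset V → ZMod 2}
    (hy : Ch Γ S q y) (hz : Ch Γ S q z) : Ch Γ S q (y + z) := by
  intro T hT
  by_cases h : y T = 0
  · apply hz T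
    intro h2
    apply hT
    simp [h, h2]
  · exact hy T h

theorem ch_mono {Γ : SimpleGraph V} {S A : Finset V} {q : ℕ} {z : Finset V → ZMod 2}
    (h : A ⊆ S) (hz : Ch Γ A q z) : Ch Γ S q z := fun T hT =>
  ⟨(hz T hT).1.trans h, (hz T hT).2⟩

theorem ch_bd {Γ : SimpleGraph V} {S : Finset V} {q : ℕ} {z : Finset V → ZMod 2}
    (hz : Ch Γ S (q + 1) z) : Ch Γ S q (bd z) := by
  intro T hT
  unfold bd at hT
  obtain ⟨v, hv, hne⟩ := Finset.exists_ne_zero_of_sum_ne_zero hT
  have hvT : v ∉ T := (Finset.mem_sdiff.mp hv).2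
  obtain ⟨h1, h2, h3⟩ := hz _ hne
  refine ⟨(Finset.subset_insert v T).trans h1, h2.subset ?_, ?_⟩
  · intro x hx
    exact Finset.mem_coe.mpr (Finset.mem_insert_of_mem (Finset.mem_coe.mp hx))
  · rw [Finset.card_insert_of_notMem hvT] at h3
    omega

theorem ch_lp {Γ : SimpleGraph V} {S : Finset V} {q : ℕ} {y : Finset V → ZMod 2} (v : V)
    (hy : Ch Γ S (q + 1) y) : Ch Γ (lk Γ S v) q (lp v y) := by
  intro T hT
  unfold lp at hT
  split_ifs at hT with hv
  · exact absurd rfl hT
  · obtain ⟨h1, h2, h3⟩ := hy _ hT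
    refine ⟨?_, ?_, ?_⟩
    · intro x hx
      rw [mem_lk]
      refine ⟨h1 (Finset.mem_insert_of_mem hx), ?_⟩
      apply h2 (Finset.mem_coe.mpr (Finset.mem_insert_self v T))
        (Finset.mem_coe.mpr (Finset.mem_insert_of_mem hx))
      rintro rfl
      exact hv hx
    · exact h2.subset fun x hx => Finset.mem_coe.mpr
        (Finset.mem_insert_of_mem (Finset.mem_coe.mp hx))
    · rw [Finset.card_insert_of_notMem hv] at h3
      omega

theorem bd_lp (v : V) (y : Finset V → ZMod 2) : bd (lp v y) = lp v (bd y) := by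
  funext T
  by_cases hv : v ∈ T
  · have h1 : lp v (bd y) T = 0 := by unfold lp; rw [if_pos hv]
    rw [h1]
    unfold bd
    refine Finset.sum_eq_zero fun w _ => ?_
    unfold lp
    rw [if_pos (Finset.mem_insert_of_mem hv)]
  · have h1 : lp v (bd y) T = bd y (insert v T) := by unfold lp; rw [if_neg hv]
    rw [h1]
    unfold bd
    have h2 : (Finset.univ \ T : Finset V) = insert v (Finset.univ \ insert v T) := by
      ext x
      simp only [Finset.mem_sdiff, Finset.mem_univ, true_and, Finset.mem_insert, not_or]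
      constructor
      · intro hx
        by_cases hxv : x = v
        · exact Or.inl hxv
        · exact Or.inr ⟨hxv, hx⟩
      · rintro (rfl | h)
        · exact hv
        · exact h.2
    rw [h2, Finset.sum_insert (by simp)]
    have h3 : lp v y (insert v T) = 0 := by
      unfold lp; rw [if_pos (Finset.mem_insert_self v T)]
    rw [h3, zero_add]
    refine Finset.sum_congr rfl fun w hw => ?_
    have hw2 : w ∉ insert v T := (Finset.mem_sdiff.mp hw).2
    rw [Finset.mem_insert, not_or] at hw2
    unfold lp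
    rw [if_neg (by
      rw [Finset.mem_insert, not_or]
      exact ⟨fun h => hw2.1 h.symm, hv⟩), Finset.insert_comm]

theorem lp_add (v : V) (y z : Finset V → ZMod 2) : lp v (y + z) = lp v y + lp v z := by
  funext T
  unfold lp
  by_cases h : v ∈ T <;> simp [h]

theorem lp_of_ch {Γ : SimpleGraph V} {A : Finset V} {q : ℕ} {z : Finset V → ZMod 2} {v : V}
    (hv : v ∉ A) (hz : Ch Γ A q z) : lp v z = 0 := by
  funext T
  unfold lp
  by_cases h : v ∈ T
  · simp [h]
  · rw [if_neg h]
    by_contra hne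
    exact hv ((hz _ hne).1 (Finset.mem_insert_self v T))

theorem zero_of_mem {Γ : SimpleGraph V} {A : Finset V} {q : ℕ} {z : Finset V → ZMod 2} {v : V}
    (hv : v ∉ A) (hz : Ch Γ A q z) {T : Finset V} (hT : v ∈ T) : z T = 0 := by
  by_contra hne
  exact hv ((hz _ hne).1 hT)

theorem notMem_lk (Γ : SimpleGraph V) (S : Finset V) (v : V) : v ∉ lk Γ S v := by
  intro h
  exact (mem_lk.mp h).2.ne rfl

theorem ch_cn {Γ : SimpleGraph V} {S : Finset V} {q : ℕ} {u : Finset V → ZMod 2} {v : V}
    (hv : v ∈ S) (hu : Ch Γ (lk Γ S v) q u) : Ch Γ S (q + 1) (cn v u) := by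
  intro T hT
  unfold cn at hT
  split_ifs at hT with h
  · obtain ⟨h1, h2, h3⟩ := hu _ hT
    refine ⟨?_, ?_, ?_⟩
    · intro x hx
      by_cases hxv : x = v
      · rw [hxv]
        exact hv
      · exact (mem_lk.mp (h1 (Finset.mem_erase.mpr ⟨hxv, hx⟩))).1
    · intro x hx y hy hxy
      have hx' := Finset.mem_coe.mp hx
      have hy' := Finset.mem_coe.mp hy
      by_cases hxv : x = v
      · subst hxv
        exact (mem_lk.mp (h1 (Finset.mem_erase.mpr ⟨hxy.symm, hy'⟩))).2
      · by_cases hyv : y = v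
        · subst hyv
          exact (mem_lk.mp (h1 (Finset.mem_erase.mpr ⟨hxv, hx'⟩))).2.symm
        · exact h2 (Finset.mem_coe.mpr (Finset.mem_erase.mpr ⟨hxv, hx'⟩))
            (Finset.mem_coe.mpr (Finset.mem_erase.mpr ⟨hyv, hy'⟩)) hxy
    · rw [Finset.card_erase_of_mem h] at h3
      have := Finset.card_pos.mpr ⟨v, h⟩
      omega
  · exact absurd rfl hT

theorem bd_cn {v : V} {u : Finset V → ZMod 2} (hu : ∀ T, v ∈ T → u T = 0) :
    bd (cn v u) = u + cn v (bd u) := by
  funext T
  by_cases hv : v ∈ T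
  · have e1 : cn v (bd u) T = bd u (T.erase v) := by unfold cn; rw [if_pos hv]
    rw [Pi.add_apply, hu T hv, zero_add, e1]
    unfold bd
    have h2 : (Finset.univ \ T.erase v : Finset V) = insert v (Finset.univ \ T) := by
      ext x
      simp only [Finset.mem_sdiff, Finset.mem_univ, true_and, Finset.mem_insert,
        Finset.mem_erase, not_and]
      constructor
      · intro hx
        by_cases hxv : x = v
        · exact Or.inl hxv
        · exact Or.inr (hx hxv)
      · rintro (rfl | h)
        · exact fun h => absurd rfl h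
        · exact fun _ => h
    rw [h2, Finset.sum_insert (by simp [hv]), Finset.insert_erase hv, hu T hv, zero_add]
    refine Finset.sum_congr rfl fun w hw => ?_
    have hwT : w ∉ T := (Finset.mem_sdiff.mp hw).2
    unfold cn
    rw [if_pos (Finset.mem_insert_of_mem hv), Finset.erase_insert_of_ne]
    rintro rfl
    exact hwT hv
  · have e1 : cn v (bd u) T = 0 := by unfold cn; rw [if_neg hv]
    rw [Pi.add_apply, e1, add_zero]
    unfold bd
    rw [Finset.sum_eq_single v]
    · unfold cn
      rw [if_pos (Finset.mem_insert_self v T), Finset.erase_insert hv]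
    · intro w _ hwv
      unfold cn
      rw [if_neg]
      rw [Finset.mem_insert, not_or]
      exact ⟨fun h => hwv h.symm, hv⟩
    · intro h
      exact absurd (Finset.mem_sdiff.mpr ⟨Finset.mem_univ v, hv⟩) h

theorem lp_cn {v : V} {u : Finset V → ZMod 2} (hu : ∀ T, v ∈ T → u T = 0) :
    lp v (cn v u) = u := by
  funext T
  unfold lp
  by_cases hv : v ∈ T
  · rw [if_pos hv, hu T hv]
  · rw [if_neg hv]
    unfold cn
    rw [if_pos (Finset.mem_insert_self v T), Finset.erase_insert hv]

theorem lp_zero_of {v : V} {u : Finset V → ZMod 2} : ∀ T, v ∈ T → lp v u T = 0 := by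
  intro T hT
  unfold lp
  rw [if_pos hT]

/-- a chain in `S` with zero link part at `v` is a chain in `S.erase v` -/
theorem ch_erase {Γ : SimpleGraph V} {S : Finset V} {q : ℕ} {y : Finset V → ZMod 2} {v : V}
    (hy : Ch Γ S q y) (h0 : lp v y = 0) : Ch Γ (S.erase v) q y := by
  intro T hT
  obtain ⟨h1, h2, h3⟩ := hy T hT
  refine ⟨?_, h2, h3⟩
  intro x hx
  refine Finset.mem_erase.mpr ⟨?_, h1 hx⟩
  rintro rfl
  have := congrFun h0 (T.erase x)
  unfold lp at this
  rw [if_neg (Finset.notMem_erase x T), Finset.insert_erase hx] at this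
  exact hT this

theorem del {Γ : SimpleGraph V} {A : Finset V} {v : V} (hv : v ∈ A) {q : ℕ}
    {z y u : Finset V → ZMod 2} (hz : Ch Γ (A.erase v) q z) (hy : Ch Γ A (q + 1) y)
    (hyz : bd y = z) (hu : Ch Γ (lk Γ A v) (q + 1) u) (huy : bd u = lp v y) :
    Bd Γ (A.erase v) q z := by
  have hu0 : ∀ T, v ∈ T → u T = 0 := fun T hT => zero_of_mem (notMem_lk Γ A v) hu hT
  have hz0 : lp v z = 0 := lp_of_ch (Finset.notMem_erase v A) hz
  have hbb : bd (bd u) = 0 := by rw [huy, bd_lp, hyz, hz0]
  have hb1 : bd (cn v u) = u + cn v (bd u) := bd_cn hu0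
  have hbu0 : ∀ T, v ∈ T → bd u T = 0 := by
    rw [huy]
    exact lp_zero_of
  have hcn0 : cn v (0 : Finset V → ZMod 2) = 0 := by
    funext T
    unfold cn
    split_ifs <;> rfl
  have hb2 : bd (bd (cn v u)) = 0 := by
    rw [hb1, bd_add, bd_cn hbu0, hbb, hcn0, add_zero]
    funext T
    exact CharTwo.add_self_eq_zero _
  refine ⟨y + bd (cn v u), ?_, ?_⟩
  · apply ch_erase
    · exact ch_add hy (ch_bd (ch_cn hv hu))
    · rw [lp_add, hb1, lp_add, lp_cn hbu0, ← huy]
      have h3 : lp v u = 0 := lp_of_ch (notMem_lk Γ A v) hu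
      rw [h3, zero_add]
      funext T
      exact CharTwo.add_self_eq_zero _
  · rw [bd_add, hb2, add_zero, hyz]

theorem hsp_exact {Γ : SimpleGraph V} : ∀ {n : ℕ} {S : Finset V}, Hsp Γ n S → ∀ q, q ≠ n →
    ∀ z, Ch Γ S q z → bd z = 0 → Bd Γ S q z := by
  intro n S h q hq z hz hbz
  cases n with
  | zero =>
    have hS : S = ∅ := h
    have : z = 0 := by
      funext T
      by_contra hne
      obtain ⟨h1, _, h3⟩ := hz T hne
      rw [hS, Finset.subset_empty] at h1
      rw [h1, Finset.card_empty] at h3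
      exact hq h3.symm
    rw [this]
    exact ⟨0, ch_zero Γ S _, bd_zero⟩
  | succ m => exact h.1.exact q hq z hz hbz

theorem exists_facet (hC : CarStmt) {Γ : SimpleGraph V} {n : ℕ} {S : Finset V} (h : Hsp Γ n S)
    {v : V} (hv : v ∈ S) : ∃ T ⊆ S, Γ.IsClique (T : Set V) ∧ T.card = n ∧ v ∈ T := by
  classical
  let C : Finset (Finset V) := S.powerset.filter fun T => Γ.IsClique (T : Set V) ∧ v ∈ T
  have hne : C.Nonempty := ⟨{v}, by
    simp only [C, Finset.mem_filter, Finset.mem_powerset, Finset.singleton_subset_iff]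
    refine ⟨hv, ?_, Finset.mem_singleton_self v⟩
    simp⟩
  obtain ⟨T, hT, hmax⟩ := C.exists_max_image Finset.card hne
  simp only [C, Finset.mem_filter, Finset.mem_powerset] at hT
  refine ⟨T, hT.1, hT.2.1, ?_, hT.2.2⟩
  apply (hC V Γ n S h T hT.1 hT.2.1).2
  intro w hw hwT hcl
  have := hmax (insert w T) (by
    simp only [C, Finset.mem_filter, Finset.mem_powerset]
    refine ⟨Finset.insert_subset hw hT.1, ?_, Finset.mem_insert_of_mem hT.2.2⟩
    rw [Finset.coe_insert]
    exact hcl)
  rw [Finset.card_insert_of_notMem hwT] at this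
  omega

theorem acy_one (hC : CarStmt) (hF : FunStmt) {Γ : SimpleGraph V} {n : ℕ} {S : Finset V}
    (h : Hsp Γ (n + 1) S) {v : V} (hv : v ∈ S) : Acy Γ (S.erase v) := by
  intro q z hz hbz
  obtain ⟨c, hc1, hc2, hc3, hc4⟩ := hF V Γ (n + 1) S h
  obtain ⟨c', hc1', hc2', hc3', hc4'⟩ := hF V Γ n (lk Γ S v) (h.2 v hv)
  have hlc : lp v c = c' := by
    rcases hc4' (lp v c) (ch_lp v hc1) (by
      rw [bd_lp, hc2]
      funext T
      unfold lp
      split_ifs <;> rfl) with h1 | h1
    · exfalso
      obtain ⟨T, hT1, hT2, hT3, hT4⟩ := exists_facet hC h hv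
      have h2 := congrFun h1 (T.erase v)
      unfold lp at h2
      rw [if_neg (Finset.notMem_erase v T), Finset.insert_erase hT4, hc3 T hT1 hT2 hT3] at h2
      exact one_ne_zero h2
    · exact h1
  have hzS : Ch Γ S q z := ch_mono (Finset.erase_subset v S) hz
  have hz0 : lp v z = 0 := lp_of_ch (Finset.notMem_erase v S) hz
  by_cases hq : q = n + 1
  · subst hq
    rcases hc4 z hzS hbz with h1 | h1
    · rw [h1]
      exact ⟨0, ch_zero Γ _ _, bd_zero⟩
    · exfalso
      obtain ⟨T, hT1, hT2, hT3, hT4⟩ := exists_facet hC h hv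
      have h2 := congrFun hz0 (T.erase v)
      unfold lp at h2
      rw [if_neg (Finset.notMem_erase v T), Finset.insert_erase hT4, h1, hc3 T hT1 hT2 hT3] at h2
      exact one_ne_zero h2
  · obtain ⟨y, hy, hyz⟩ := h.1.exact q hq z hzS hbz
    have hly : bd (lp v y) = 0 := by rw [bd_lp, hyz, hz0]
    by_cases hqn : q = n
    · subst hqn
      rcases hc4' (lp v y) (ch_lp v hy) hly with h1 | h1
      · exact del hv hz hy hyz (ch_zero Γ _ _) (by rw [bd_zero, h1])
      · refine del hv hz (ch_add hy hc1) (by rw [bd_add, hyz, hc2, add_zero])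
          (ch_zero Γ _ _) ?_
        rw [bd_zero, lp_add, h1, hlc]
        funext T
        exact (CharTwo.add_self_eq_zero _).symm
    · obtain ⟨u, hu1, hu2⟩ := hsp_exact (h.2 v hv) q hqn (lp v y) (ch_lp v hy) hly
      exact del hv hz hy hyz hu1 hu2

theorem lk_sdiff (Γ : SimpleGraph V) (S σ : Finset V) (v : V) :
    lk Γ (S \ σ) v = lk Γ S v \ σ := by
  ext x
  simp only [mem_lk, Finset.mem_sdiff]
  tauto

theorem acy (hC : CarStmt) (hF : FunStmt) : AcyStmt := by
  intro V _ _ Γ n
  induction n with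
  | zero =>
    intro S σ h hσ _ hne
    obtain ⟨x, hx⟩ := hne
    have hS : S = ∅ := h
    rw [hS] at hσ
    exact absurd (hσ hx) (Finset.notMem_empty x)
  | succ n ih =>
    intro S σ h
    induction σ using Finset.induction_on with
    | empty =>
      intro _ _ hne
      exact absurd hne Finset.not_nonempty_empty
    | insert v σ hvσ ihσ =>
      intro hσ hcl _
      have hvS : v ∈ S := hσ (Finset.mem_insert_self v σ)
      have heq : S \ insert v σ = (S \ σ).erase v := by
        ext x
        simp only [Finset.mem_sdiff, Finset.mem_insert, Finset.mem_erase]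
        tauto
      by_cases hσ0 : σ = ∅
      · subst hσ0
        rw [heq, Finset.sdiff_empty]
        exact acy_one hC hF h hvS
      · have hne : σ.Nonempty := Finset.nonempty_iff_ne_empty.mpr hσ0
        have hσS : σ ⊆ S := (Finset.subset_insert v σ).trans hσ
        have hclσ : Γ.IsClique (σ : Set V) := hcl.subset fun x hx => Finset.mem_coe.mpr
          (Finset.mem_insert_of_mem (Finset.mem_coe.mp hx))
        have h1 := ihσ hσS hclσ hne
        have h2 : Acy Γ (lk Γ S v \ σ) := by
          refine ih (lk Γ S v) σ (h.2 v hvS) ?_ hclσ hne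
          intro x hx
          rw [mem_lk]
          refine ⟨hσS hx, hcl (Finset.mem_coe.mpr (Finset.mem_insert_self v σ))
            (Finset.mem_coe.mpr (Finset.mem_insert_of_mem hx)) ?_⟩
          rintro rfl
          exact hvσ hx
        rw [heq]
        intro q z hz hbz
        obtain ⟨y, hy, hyz⟩ := h1 q z (ch_mono (Finset.erase_subset v _) hz) hbz
        have hz0 : lp v z = 0 := lp_of_ch (Finset.notMem_erase v _) hz
        have hly : bd (lp v y) = 0 := by rw [bd_lp, hyz, hz0]
        have hly2 : Ch Γ (lk Γ S v \ σ) q (lp v y) := by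
          rw [← lk_sdiff]
          exact ch_lp v hy
        obtain ⟨u, hu1, hu2⟩ := h2 q (lp v y) hly2 hly
        rw [← lk_sdiff] at hu1
        exact del (Finset.mem_sdiff.mpr ⟨hvS, hvσ⟩) hz hy hyz hu1 hu2

end Pool.Agent.Sph.H18
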