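import Pool.Agent.Helper30_Sph.Stmts

set_option autoImplicit false

/-!
# SPH, module THD: the coboundary of the van Kampen cochain
-/

namespace Pool.Agent.Sph.H18

variable {V : Type} [LinearOrder V]

theorem alt_cons_iff (a : V) (σ τ : Finset V) (hσ : ∀ x ∈ σ, a < x) (hτ : ∀ x ∈ τ, a < x) :
    Alt (insert a σ) τ ↔ Alt τ σ := by
  constructor
  · intro h
    generalize hρ : insert a σ = ρ at h
    cases h with
    | nil =>
      exact absurd (hρ ▸ Finset.mem_insert_self a σ) (Finset.notMem_empty a)
    | cons b σ2 τ hσ2 hτ2 h =>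
      have hab : a = b := by
        apply le_antisymm
        · have hb : b ∈ insert a σ := hρ ▸ Finset.mem_insert_self b σ2
          rcases Finset.mem_insert.mp hb with h1 | h1
          · exact h1.ge
          · exact (hσ b h1).le
        · have ha : a ∈ insert b σ2 := hρ ▸ Finset.mem_insert_self a σ
          rcases Finset.mem_insert.mp ha with h1 | h1
          · exact h1.ge
          · exact (hσ2 a h1).le
      subst hab
      have h1 : a ∉ σ := fun h => lt_irrefl _ (hσ a h)
      have h2 : a ∉ σ2 := fun h => lt_irrefl _ (hσ2 a h)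
      have h3 : σ = σ2 := by
        rw [← Finset.erase_insert h1, hρ, Finset.erase_insert h2]
      rw [h3]
      exact h
  · intro h
    exact Alt.cons a σ τ hσ hτ h

theorem not_alt (a : V) (σ τ : Finset V) (ha : a ∈ τ) (hσ : ∀ x ∈ σ, a < x) : ¬ Alt σ τ := by
  intro h
  cases h with
  | nil => exact Finset.notMem_empty a ha
  | cons b σ2 τ hσ2 hτ2 h =>
    exact lt_asymm (hσ b (Finset.mem_insert_self b σ2)) (hτ2 a ha)

theorem th_cons (a : V) (σ τ : Finset V) (hσ : ∀ x ∈ σ, a < x) (hτ : ∀ x ∈ τ, a < x) :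
    th (insert a σ) τ = th τ σ := by
  have h0 := alt_cons_iff a σ τ hσ hτ
  unfold th
  by_cases h : Alt τ σ
  · rw [if_pos h, if_pos (h0.mpr h)]
  · rw [if_neg h, if_neg (fun h' => h (h0.mp h'))]

theorem th_zero (a : V) (σ τ : Finset V) (ha : a ∈ τ) (hσ : ∀ x ∈ σ, a < x) :
    th σ τ = 0 := by
  unfold th
  rw [if_neg (not_alt a σ τ ha hσ)]

theorem main_aux : ∀ (n : ℕ) (σ τ : Finset V), σ.card + τ.card = n → Disjoint σ τ →
    ∑ v ∈ σ, th (σ.erase v) τ + ∑ v ∈ τ, th σ (τ.erase v) = th σ τ + th τ σ := by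
  intro n
  induction n with
  | zero =>
    intro σ τ hn _
    have h1 : σ = ∅ := Finset.card_eq_zero.mp (by omega)
    have h2 : τ = ∅ := Finset.card_eq_zero.mp (by omega)
    subst h1 h2
    rw [CharTwo.add_self_eq_zero]
    simp
  | succ n ih =>
    intro σ τ hn hd
    have hU : (σ ∪ τ).Nonempty := by
      rw [← Finset.card_pos, Finset.card_union_of_disjoint hd]
      omega
    obtain ⟨a, haU, hmin⟩ : ∃ a ∈ σ ∪ τ, ∀ x ∈ σ ∪ τ, a ≤ x :=
      ⟨(σ ∪ τ).min' hU, Finset.min'_mem _ hU, fun x hx => Finset.min'_le _ x hx⟩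
    rcases Finset.mem_union.mp haU with ha | ha
    · have haτ : a ∉ τ := Finset.disjoint_left.mp hd ha
      have hτ : ∀ x ∈ τ, a < x := fun x hx =>
        lt_of_le_of_ne (hmin x (Finset.mem_union_right _ hx)) (fun h => haτ (h ▸ hx))
      have hσ : ∀ x ∈ σ.erase a, a < x := fun x hx =>
        lt_of_le_of_ne (hmin x (Finset.mem_union_left _ (Finset.mem_of_mem_erase hx)))
          (Finset.ne_of_mem_erase hx).symm
      have hins : insert a (σ.erase a) = σ := Finset.insert_erase ha
      have e1 : th τ σ = 0 := th_zero a τ σ ha hτ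
      have e2 : th σ τ = th τ (σ.erase a) := by
        conv_lhs => rw [← hins]
        exact th_cons a _ _ hσ hτ
      have e3 : ∑ v ∈ σ, th (σ.erase v) τ =
          th (σ.erase a) τ + ∑ v ∈ σ.erase a, th τ ((σ.erase a).erase v) := by
        rw [← Finset.add_sum_erase σ _ ha]
        congr 1
        refine Finset.sum_congr rfl fun v hv => ?_
        have hva : v ≠ a := Finset.ne_of_mem_erase hv
        have h4 : σ.erase v = insert a ((σ.erase a).erase v) := by
          rw [Finset.erase_right_comm, Finset.insert_erase]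
          exact Finset.mem_erase.mpr ⟨hva.symm, ha⟩
        rw [h4]
        exact th_cons a _ _ (fun x hx => hσ x (Finset.mem_of_mem_erase hx)) hτ
      have e4 : ∑ v ∈ τ, th σ (τ.erase v) = ∑ v ∈ τ, th (τ.erase v) (σ.erase a) := by
        refine Finset.sum_congr rfl fun v hv => ?_
        conv_lhs => rw [← hins]
        exact th_cons a _ _ hσ (fun x hx => hτ x (Finset.mem_of_mem_erase hx))
      have hIH := ih τ (σ.erase a) (by
        have := Finset.card_erase_of_mem ha
        have := Finset.card_pos.mpr ⟨a, ha⟩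
        omega) (hd.symm.mono_right (Finset.erase_subset _ _))
      rw [e3, e4, e1, e2, add_zero]
      have h5 : th (σ.erase a) τ + th (σ.erase a) τ = 0 := CharTwo.add_self_eq_zero _
      linear_combination hIH + h5
    · have haσ : a ∉ σ := Finset.disjoint_right.mp hd ha
      have hσ : ∀ x ∈ σ, a < x := fun x hx =>
        lt_of_le_of_ne (hmin x (Finset.mem_union_left _ hx)) (fun h => haσ (h ▸ hx))
      have hτ : ∀ x ∈ τ.erase a, a < x := fun x hx =>
        lt_of_le_of_ne (hmin x (Finset.mem_union_right _ (Finset.mem_of_mem_erase hx)))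
          (Finset.ne_of_mem_erase hx).symm
      have e1 : th σ τ = 0 := th_zero a σ τ ha hσ
      have e2 : th τ σ = th σ (τ.erase a) := by
        conv_lhs => rw [← Finset.insert_erase ha]
        exact th_cons a _ _ hτ hσ
      have e3 : ∑ v ∈ σ, th (σ.erase v) τ = 0 := by
        refine Finset.sum_eq_zero fun v hv => ?_
        exact th_zero a _ _ ha (fun x hx => hσ x (Finset.mem_of_mem_erase hx))
      have e4 : ∑ v ∈ τ, th σ (τ.erase v) = th σ (τ.erase a) := by
        rw [← Finset.add_sum_erase τ _ ha]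
        rw [Finset.sum_eq_zero, add_zero]
        intro v hv
        have hva : v ≠ a := Finset.ne_of_mem_erase hv
        exact th_zero a _ _ (Finset.mem_erase.mpr ⟨hva.symm, ha⟩) hσ
      rw [e3, e4, e1, e2]

theorem thd : ThdStmt := by
  intro V _ σ τ h
  exact main_aux _ σ τ rfl h

end Pool.Agent.Sph.H18
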